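import Pool.Agent.Y460.KH.Range
import Pool.Agent.Y460.KH.Sharp

set_option autoImplicit false

/-!
# MP_b509a1_ag: entire curves in general hypersurfaces, ramified over `n + 2` hyperplanes

`result` has three parts.

1. `F` general of degree `d` in `n + 2` variables, `d ≥ 2 n` and `2 d ≥ 3 n + 4` (in particular
   every `d ≥ 2 n + 2`, the range of the problem): for every
   `k ≥ (binom(n + 1 + d, d) - 1) ^ 2` and every `n + 2` hyperplanes in general position (the rows
   of an invertible matrix `A`), every entire curve in the hypersurface `F = 0` which is `k`-ramified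
   over (or omits) each of the `n + 2` hyperplanes is constant, and every entire curve in the
   hypersurface `F (A x ^ k) = 0` is constant.
2. For the coordinate hyperplanes the same holds already for `d ≥ n` (and `n ≥ 1`).
3. The bound `d ≥ n` in 2 is optimal: for `1 ≤ d < n`, every `F` of degree `d` and every `k ≥ 1`,
   the hypersurface `F (x ^ k) = 0` contains a nonconstant entire curve, and so does `F = 0`,
   with all coordinates `k`-th powers.
-/

namespace Pool.Agent.Results.MP_b509a1_ag.GeneralKummerCovers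

open MvPolynomial Pool.Agent.Y460.KH

theorem result :
    (∀ n d : ℕ, 1 ≤ n → 2 * n ≤ d → 3 * n + 4 ≤ 2 * d →
      General n d fun F => ∀ k : ℕ, ((n + 1 + d).choose d - 1) ^ 2 ≤ k →
        ∀ A : Matrix (Fin (n + 2)) (Fin (n + 2)) ℂ, IsUnit A →
        (∀ f : ℂ → Fin (n + 2) → ℂ, Curve f → (∀ z, eval (f z) F = 0) →
          (∀ l, Ram k fun z => A.mulVec (f z) l) → Const f) ∧
        (∀ h : ℂ → Fin (n + 2) → ℂ, Curve h →
          (∀ z, eval (A.mulVec fun l => h z l ^ k) F = 0) → Const h)) ∧
    (∀ n d : ℕ, 1 ≤ n → n ≤ d →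
      General n d fun F => ∀ k : ℕ, ((n + 1 + d).choose d - 1) ^ 2 ≤ k →
        (∀ f : ℂ → Fin (n + 2) → ℂ, Curve f → (∀ z, eval (f z) F = 0) →
          (∀ l, Ram k fun z => f z l) → Const f) ∧
        (∀ h : ℂ → Fin (n + 2) → ℂ, Curve h →
          (∀ z, eval (fun l => h z l ^ k) F = 0) → Const h)) ∧
    (∀ n d k : ℕ, 1 ≤ d → d < n → 1 ≤ k → ∀ F : MvPolynomial (Fin (n + 2)) ℂ,
      F.IsHomogeneous d →
        ∃ h : ℂ → Fin (n + 2) → ℂ, Curve h ∧ (∀ z, eval (fun l => h z l ^ k) F = 0) ∧
          ¬ Const h ∧ Curve (fun z l => h z l ^ k) ∧ ¬ Const (fun z l => h z l ^ k)) :=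
  ⟨all_range, one_simplex, fun n d k hd hdn hk F hF => sharp n d k hd hdn hk F hF⟩

end Pool.Agent.Results.MP_b509a1_ag.GeneralKummerCovers
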