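import Pool.Agent.TH182.VI.Main
import Pool.Agent.TH600.LK.Ell
import Pool.Agent.Y189.DC.Fin
import Pool.Agent.W437.HD.DerivK

/-!
MP_b509a1_ag, Q1: entire curves in very general hypersurfaces of degree at least `2 n + 2`, with
homogeneous coordinates built from elliptic functions (or polynomials) by exponentials, integrations
and gap series, or satisfying linear functional equations.
-/

set_option autoImplicit false

namespace Pool.Agent.Results.MP_b509a1_ag.VeryGeneralTowers

open Filter MvPolynomial
open scoped LinearAlgebra.Projectivization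
open Pool.Agent.TH143.EL (HolMap InV Rep TorusMapsIn TrOne rep_rep inV_iff rep_iff)
open Pool.Agent.TH600.LK (TowFun TowRing tow_main)
open Pool.Agent.Y189.DC (NCE Base FunEq)
open Pool.Agent.TH182.VI (CI TorusConst torus_const very_general coeffs)

variable {n : ℕ}

/-- `g` gives, in homogeneous coordinates, a holomorphic map from `ℂ` to the hypersurface `F = 0` of
the projective space of dimension `n + 1`. -/
structure EntireCurve (F : MvPolynomial (Fin (n + 2)) ℂ) (g : ℂ → Fin (n + 2) → ℂ) : Prop where
  hol : Differentiable ℂ g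
  ne : ∀ z, g z ≠ 0
  mem : ∀ z, eval (g z) F = 0

/-- The curve is constant. -/
def Constant (g : ℂ → Fin (n + 2) → ℂ) : Prop := ∀ z, ∃ c : ℂ, g z = c • g 0

/-- `ω` is a period of the curve. -/
def Period (g : ℂ → Fin (n + 2) → ℂ) (ω : ℂ) : Prop := ∀ z, ∃ c : ℂ, g (z + ω) = c • g z

/-- `h` gives homogeneous coordinates of the curve `g`, outside of a discrete set. -/
def Coordinates (g h : ℂ → Fin (n + 2) → ℂ) : Prop :=
  ∀ᶠ z in codiscrete ℂ, h z ≠ 0 ∧ ∃ c : ℂ, h z = c • g z

/-- Curves with homogeneous coordinates in the ring `TowRing B ψ` generated by the tower functions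
over `B` (`TowFun B`: the meromorphic functions on the plane obtained from the functions in `B` by
additions, multiplications, exponentials of entire functions and integrations) and by the functions
`u (ψ z)`, `u` an entire function with Hadamard gaps. Here `B` is a ring of meromorphic functions on
the plane, closed under differentiation, any two of its elements being algebraically dependent over
the constants (`TrOne B`; for example the polynomials, the polynomials in `exp (a z)`, the elliptic
functions with given periods), and `ψ` is a nonconstant entire tower function over `B`. -/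
def TowerCurve (g : ℂ → Fin (n + 2) → ℂ) : Prop :=
  ∃ (B : Subalgebra ℂ (ℂ → ℂ)) (ψ : ℂ → ℂ), TrOne B ∧ TowFun B ψ ∧ Differentiable ℂ ψ ∧
    (∃ z w, ψ z ≠ ψ w) ∧ ∃ h : ℂ → Fin (n + 2) → ℂ, (∀ j, (fun z => h z j) ∈ TowRing B ψ) ∧
      Coordinates g h

/-- The curve `g` is given by linear functional equations with respect to `σ`: `σ` is a nonconstant
entire function (`NCE σ`), no iterate `σ^k`, `k > 0`, of which is the identity, and the curve has
meromorphic homogeneous coordinates `h j`, each of them satisfying a nontrivial equation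
`∑ a_k(z) h(σ^k(z)) = 0` (`FunEq σ U (h j)`), whose coefficients are polynomials in finitely many
meromorphic functions `u` in `U`. The field generated by `U` is closed under the composition with
`σ` and has transcendence degree at most one over the constants (`Base σ U`). -/
def FunctionalCurve (σ : ℂ → ℂ) (g : ℂ → Fin (n + 2) → ℂ) : Prop :=
  NCE σ ∧ (∀ k, 0 < k → ∃ z, σ^[k] z ≠ z) ∧ ∃ U : Set (ℂ → ℂ), Base σ U ∧
    ∃ h : Fin (n + 2) → ℂ → ℂ, (∀ j, Meromorphic (h j)) ∧ (∀ j, FunEq σ U (h j)) ∧
      Coordinates g fun z j => h j z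

/-- The hypersurface `F = 0` is smooth. -/
def Smooth (F : MvPolynomial (Fin (n + 2)) ℂ) : Prop :=
  ∀ x : Fin (n + 2) → ℂ, x ≠ 0 → eval x F = 0 → ∃ i, eval x (pderiv i F) ≠ 0

/-! ### Smoothness -/

theorem der_eval (δ : Derivation ℤ ℂ ℂ) (x : Fin (n + 2) → ℂ) (F : MvPolynomial (Fin (n + 2)) ℂ) :
    δ (eval x F) = ∑ α ∈ F.support, δ (F.coeff α) * ∏ i, x i ^ α i +
      ∑ i, eval x (pderiv i F) * δ (x i) := by
  classical
  have key : ∀ (α : Fin (n + 2) →₀ ℕ) (c : ℂ), δ (eval x (monomial α c)) =
      δ c * ∏ i, x i ^ α i + ∑ i, eval x (pderiv i (monomial α c)) * δ (x i) := by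
    intro α c
    induction α using Finsupp.induction_linear generalizing c with
    | zero =>
      simp
    | add f g hf hg =>
      have h1 : monomial (f + g) c = monomial f c * monomial g 1 := by
        rw [monomial_mul, mul_one]
      have h2 : δ (1 : ℂ) = 0 := δ.map_one_eq_zero
      rw [h1, map_mul, δ.leibniz, hf, hg, h2, zero_mul, zero_add, smul_eq_mul, smul_eq_mul]
      have h3 : ∀ i, eval x (pderiv i (monomial f c * monomial g 1)) =
          eval x (monomial f c) * eval x (pderiv i (monomial g 1)) +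
            eval x (monomial g 1) * eval x (pderiv i (monomial f c)) := by
        intro i
        rw [Derivation.leibniz, smul_eq_mul, smul_eq_mul, map_add, map_mul, map_mul]
      simp only [h3, add_mul, Finset.sum_add_distrib, Finset.mul_sum, mul_add]
      have h4 : eval x (monomial g (1 : ℂ)) = ∏ i, x i ^ g i := by
        rw [eval_monomial, one_mul, Finsupp.prod_fintype _ _ (fun i => pow_zero _)]
      have h5 : ∏ i, x i ^ (f + g) i = (∏ i, x i ^ f i) * ∏ i, x i ^ g i := by
        rw [← Finset.prod_mul_distrib]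
        refine Finset.prod_congr rfl fun i _ => ?_
        rw [Finsupp.add_apply, pow_add]
      rw [h4, h5]
      have h6 : ∀ i, eval x (monomial f c) * eval x (pderiv i (monomial g 1)) * δ (x i) =
          eval x (monomial f c) * (eval x (pderiv i (monomial g 1)) * δ (x i)) := fun i =>
        mul_assoc _ _ _
      have h7 : ∀ i, (∏ i, x i ^ g i) * eval x (pderiv i (monomial f c)) * δ (x i) =
          (∏ i, x i ^ g i) * (eval x (pderiv i (monomial f c)) * δ (x i)) := fun i =>
        mul_assoc _ _ _
      simp only [h6, h7]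
      ring
    | single j m =>
      have h0 : (Finsupp.single j m).prod (fun n e => x n ^ e) = x j ^ m :=
        Finsupp.prod_single_index (pow_zero _)
      rw [eval_monomial, h0, δ.leibniz, δ.leibniz_pow, smul_eq_mul, smul_eq_mul]
      have h1 : ∏ i, x i ^ (Finsupp.single j m) i = x j ^ m := by
        rw [Finset.prod_eq_single j]
        · rw [Finsupp.single_eq_same]
        · intro i _ hi
          rw [Finsupp.single_eq_of_ne hi, pow_zero]
        · intro h
          exact absurd (Finset.mem_univ _) h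
      have h2 : ∑ i, eval x (pderiv i (monomial (Finsupp.single j m) c)) * δ (x i) =
          c * (m * x j ^ (m - 1)) * δ (x j) := by
        rw [Finset.sum_eq_single j]
        · have h0' : (Finsupp.single j (m - 1)).prod (fun n e => x n ^ e) = x j ^ (m - 1) :=
            Finsupp.prod_single_index (pow_zero _)
          rw [pderiv_monomial, eval_monomial, Finsupp.single_eq_same, ← Finsupp.single_tsub, h0']
          ring
        · intro i _ hi
          rw [pderiv_monomial, Finsupp.single_eq_of_ne hi]
          simp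
        · intro h
          exact absurd (Finset.mem_univ _) h
      rw [h1, h2]
      simp only [nsmul_eq_mul, smul_eq_mul]
      ring
  conv_lhs => rw [F.as_sum, map_sum, map_sum]
  rw [Finset.sum_congr rfl fun α _ => key α (F.coeff α), Finset.sum_add_distrib]
  congr 1
  rw [Finset.sum_comm]
  refine Finset.sum_congr rfl fun i _ => ?_
  rw [← Finset.sum_mul]
  congr 1
  conv_rhs => rw [F.as_sum, map_sum, map_sum]

theorem smooth_of {d : ℕ} (hd : 0 < d) {F : MvPolynomial (Fin (n + 2)) ℂ} (hF : F.IsHomogeneous d)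
    (hD : ∀ j : Fin (n + 2), ∃ δ : Derivation ℤ ℂ ℂ, ∀ α : Fin (n + 2) →₀ ℕ, α.degree = d →
      δ (F.coeff α) = if α = Finsupp.single j d then 1 else 0) : Smooth F := by
  classical
  intro x hx hFx
  by_contra hcon
  push Not at hcon
  apply hx
  funext j
  obtain ⟨δ, hδ⟩ := hD j
  have h1 := der_eval δ x F
  rw [hFx, map_zero] at h1
  have h2 : ∑ i, eval x (pderiv i F) * δ (x i) = 0 :=
    Finset.sum_eq_zero fun i _ => by rw [hcon i, zero_mul]
  rw [h2, add_zero] at h1
  have hdeg : ∀ α ∈ F.support, α.degree = d := fun α hα => by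
    have := hF (mem_support_iff.1 hα)
    rw [← this, Finsupp.degree_eq_weight_one]
    rfl
  have h3 : ∑ α ∈ F.support, δ (F.coeff α) * ∏ i, x i ^ α i = x j ^ d := by
    have hj : Finsupp.single j d ∈ F.support := by
      rw [mem_support_iff]
      intro h0
      have := hδ (Finsupp.single j d) (by simp)
      rw [h0, map_zero, if_pos rfl] at this
      exact zero_ne_one this
    rw [Finset.sum_eq_single (Finsupp.single j d)]
    · rw [hδ _ (by simp), if_pos rfl, one_mul, Finset.prod_eq_single j]
      · rw [Finsupp.single_eq_same]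
      · intro i _ hi
        rw [Finsupp.single_eq_of_ne hi, pow_zero]
      · intro h
        exact absurd (Finset.mem_univ _) h
    · intro α hα hne
      rw [hδ α (hdeg α hα), if_neg hne, zero_mul]
    · intro h
      exact absurd hj h
  rw [h3] at h1
  exact (pow_eq_zero_iff hd.ne').1 h1.symm

/-! ### Curves in the projective space -/

/-- The map to the projective space given by `g`. -/
noncomputable def curve (g : ℂ → Fin (n + 2) → ℂ) (hg : ∀ z, g z ≠ 0) :
    ℂ → ℙ ℂ (Fin (n + 1 + 1) → ℂ) :=
  fun z => Projectivization.mk ℂ (g z) (hg z)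

theorem rep_curve (g : ℂ → Fin (n + 2) → ℂ) (hg : ∀ z, g z ≠ 0) (z : ℂ) :
    Rep (curve g hg z) (g z) := ⟨hg z, rfl⟩

theorem curve_eq {g : ℂ → Fin (n + 2) → ℂ} {hg : ∀ z, g z ≠ 0} {z w : ℂ} :
    curve g hg z = curve g hg w ↔ ∃ c : ℂ, g z = c • g w := by
  unfold curve
  rw [Projectivization.mk_eq_mk_iff']
  constructor
  · rintro ⟨c, hc⟩
    exact ⟨c, hc.symm⟩
  · rintro ⟨c, hc⟩
    exact ⟨c, hc.symm⟩

theorem holMap_curve {g : ℂ → Fin (n + 2) → ℂ} (h : Differentiable ℂ g) (hg : ∀ z, g z ≠ 0) :
    HolMap (curve g hg) := by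
  intro a
  refine ⟨fun j z => g z j, fun j => ?_, Filter.Eventually.of_forall fun z => rep_curve g hg z⟩
  have h1 : Differentiable ℂ (fun z => g z j) := differentiable_pi.1 h j
  exact h1.analyticAt a

theorem inV_curve {F : MvPolynomial (Fin (n + 2)) ℂ} {g : ℂ → Fin (n + 2) → ℂ}
    (hg : ∀ z, g z ≠ 0) (hF : ∀ z, eval (g z) F = 0) (z : ℂ) :
    InV (Ideal.span {F}) (curve g hg z) := by
  rw [inV_iff (rep_curve g hg z)]
  intro G hG _
  have h1 : Ideal.span {F} ≤ RingHom.ker (eval (g z)) := by
    rw [Ideal.span_le]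
    rintro _ rfl
    exact hF z
  exact h1 hG

theorem rep_of {g h : ℂ → Fin (n + 2) → ℂ} (hg : ∀ z, g z ≠ 0) (hc : Coordinates g h) :
    ∀ᶠ z in codiscrete ℂ, Rep (curve g hg z) (h z) := by
  filter_upwards [hc] with z hz
  obtain ⟨h0, c, hc⟩ := hz
  refine ⟨h0, ?_⟩
  unfold curve
  rw [Projectivization.mk_eq_mk_iff']
  have hc0 : c ≠ 0 := by
    rintro rfl
    apply h0
    rw [hc, zero_smul]
  exact ⟨c⁻¹, by rw [hc, smul_smul, inv_mul_cancel₀ hc0, one_smul]⟩

theorem constant_iff {g : ℂ → Fin (n + 2) → ℂ} (hg : ∀ z, g z ≠ 0) :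
    Constant g ↔ ¬ ∃ z w, curve g hg z ≠ curve g hg w := by
  constructor
  · rintro h ⟨z, w, hzw⟩
    apply hzw
    have h1 : ∀ z, curve g hg z = curve g hg 0 := fun z => curve_eq.2 (h z)
    rw [h1 z, h1 w]
  · intro h z
    by_contra hcon
    exact h ⟨z, 0, fun h1 => hcon (curve_eq.1 h1)⟩

theorem not_top {p : ℙ ℂ (Fin (n + 1 + 1) → ℂ)}
    (h : InV (⊤ : Ideal (MvPolynomial (Fin (n + 1 + 1)) ℂ)) p) : False := by
  have h2 := h 1 Submodule.mem_top ⟨0, isHomogeneous_one _ _⟩
  rw [map_one] at h2
  exact one_ne_zero h2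

/-! ### Very general forms -/

theorem trdeg_le : Algebra.trdeg ℂ (MvPolynomial (Fin (n + 1 + 1)) ℂ ⧸
    Ideal.span (Set.range (Empty.elim : Empty → MvPolynomial (Fin (n + 1 + 1)) ℂ))) ≤
      ((n + 1 : ℕ) : Cardinal) + 1 := by
  have h1 := trdeg_le_of_surjective
    (Ideal.Quotient.mkₐ ℂ (Ideal.span (Set.range
      (Empty.elim : Empty → MvPolynomial (Fin (n + 1 + 1)) ℂ))))
    (Ideal.Quotient.mkₐ_surjective _ _)
  rw [MvPolynomial.trdeg_of_isDomain] at h1
  refine h1.trans ?_
  simp

theorem fin_CI {N q : ℕ} (d : Fin q → ℕ) : Finite (CI N d) := by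
  have hfin : ∀ i, Finite {m : Fin (N + 1) →₀ ℕ // m.degree = d i} := by
    intro i
    have h1 : {m : Fin (N + 1) →₀ ℕ | m.degree = d i}.Finite := by
      refine (Finsupp.finite_of_degree_le (d i)).subset ?_
      intro m hm
      exact le_of_eq hm
    exact h1
  exact inferInstance

/-- The main step: for all forms whose coefficients avoid the zeros of countably many polynomials,
the coefficients are algebraically independent over a countable field and the torus curves are
constant. -/
theorem step (n d : ℕ) (hd : 2 * n + 2 ≤ d) :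
    ∃ Ps : Set (MvPolynomial (Fin (n + 2) →₀ ℕ) ℂ), Ps.Countable ∧
      (∀ P ∈ Ps, ∃ F₀ : MvPolynomial (Fin (n + 2)) ℂ, F₀.IsHomogeneous d ∧
        eval (fun m => F₀.coeff m) P ≠ 0) ∧
      ∀ F : MvPolynomial (Fin (n + 2)) ℂ, F.IsHomogeneous d →
        (∀ P ∈ Ps, eval (fun m => F.coeff m) P ≠ 0) →
        Smooth F ∧ TorusMapsIn (Ideal.span {F}) (⊤ : Ideal (MvPolynomial (Fin (n + 1 + 1)) ℂ)) := by
  classical
  obtain ⟨k₁, hk₁, hmain⟩ := torus_const (N := n + 1) (m := n + 1)
    (Empty.elim : Empty → MvPolynomial (Fin (n + 1 + 1)) ℂ) (fun i => i.elim) trdeg_le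
  obtain ⟨Ps, h1, h2, h3⟩ := very_general (N := n + 1) (q := 1) k₁ (fun _ => d)
  let φ : CI (n + 1) (fun _ : Fin 1 => d) → (Fin (n + 2) →₀ ℕ) := fun x => x.2.1
  have hφ : Function.Injective φ := by
    rintro ⟨i, a⟩ ⟨j, b⟩ h
    have hij : i = j := Subsingleton.elim _ _
    subst hij
    have : a = b := Subtype.ext h
    rw [this]
  have hfin : Finite (CI (n + 1) (fun _ : Fin 1 => d)) := fin_CI _
  have : Fintype (CI (n + 1) (fun _ : Fin 1 => d)) := Fintype.ofFinite _
  refine ⟨rename φ '' Ps, h1.image _, ?_, ?_⟩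
  · rintro _ ⟨P, hP, rfl⟩
    have hP0 : P ≠ 0 := fun h => h2 (h ▸ hP)
    obtain ⟨v, hv⟩ : ∃ v : CI (n + 1) (fun _ : Fin 1 => d) → ℂ, eval v P ≠ 0 := by
      by_contra hcon
      push Not at hcon
      exact hP0 (MvPolynomial.funext fun v => by rw [hcon v, map_zero])
    refine ⟨∑ x, monomial (φ x) (v x), ?_, ?_⟩
    · apply IsHomogeneous.sum
      intro x _
      exact isHomogeneous_monomial _ x.2.2
    · rw [eval_rename]
      convert hv using 2
      congr 1
      funext x
      simp only [Function.comp_apply, coeff_sum, coeff_monomial]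
      rw [Finset.sum_eq_single x]
      · rw [if_pos rfl]
      · intro y _ hy
        rw [if_neg (fun h => hy (hφ h))]
      · intro h
        exact absurd (Finset.mem_univ _) h
  · intro F hF hP
    have hind : AlgebraicIndependent k₁ (coeffs (fun _ : Fin 1 => d) fun _ => F) := by
      apply h3
      intro P hPP
      have := hP _ ⟨P, hPP, rfl⟩
      rw [eval_rename] at this
      exact this
    constructor
    · refine smooth_of (by omega) hF fun j => ?_
      obtain ⟨δ, hδ⟩ := Pool.Agent.W437.HE.exists_derivation hind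
        (fun x => if φ x = Finsupp.single j d then 1 else 0)
      refine ⟨δ.restrictScalars ℤ, fun α hα => ?_⟩
      exact hδ ⟨0, ⟨α, hα⟩⟩
    · intro ω₁ ω₂ hω g hg hp1 hp2 hgX hgnc
      exfalso
      obtain ⟨z, w, hzw⟩ := hgnc
      have h5 : TorusConst (Sum.elim (Empty.elim : Empty → MvPolynomial (Fin (n + 1 + 1)) ℂ)
          (fun _ : Fin 1 => F)) := hmain 1 (fun _ => d) (fun _ => F) (fun _ => hF) hind (by
        simp only [Finset.univ_unique, Finset.sum_const, Finset.card_singleton, smul_eq_mul]
        omega)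
      refine hzw (h5 hω (Pool.Agent.TH182.VG.holo_of_holMap hg) hp1 hp2 ?_ z w)
      rintro (i | i) z
      · exact i.elim
      · exact hgX z F (Ideal.subset_span rfl) ⟨d, hF⟩

/-- **Entire curves in very general hypersurfaces of degree at least `2 n + 2`.** For `d ≥ 2 n + 2`
there is a countable set `Ps` of polynomials in the coefficients, none of which vanishes on all
forms of degree `d`, such that for all forms `F` of degree `d` in `n + 2` variables on which no
`P ∈ Ps` vanishes (a very general hypersurface of degree `d` in the projective space of dimension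
`n + 1`) the following holds: `F = 0` is smooth, and for all entire curves `g` in `F = 0`
* if `g` is doubly periodic, then `g` is constant;
* if `g` has homogeneous coordinates in the ring generated by the tower functions and the gap
  series, then `g` is constant;
* if `g` is not constant, then there is a number `b` such that the only entire functions `σ` for
  which `g` is given by linear functional equations are translations `z + r b`, `r` rational, and
  then a multiple of `r b` is a period of `g`. -/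
theorem result (n d : ℕ) (hd : 2 * n + 2 ≤ d) :
    ∃ Ps : Set (MvPolynomial (Fin (n + 2) →₀ ℕ) ℂ), Ps.Countable ∧
      (∀ P ∈ Ps, ∃ F₀ : MvPolynomial (Fin (n + 2)) ℂ, F₀.IsHomogeneous d ∧
        eval (fun m => F₀.coeff m) P ≠ 0) ∧
      ∀ F : MvPolynomial (Fin (n + 2)) ℂ, F.IsHomogeneous d →
        (∀ P ∈ Ps, eval (fun m => F.coeff m) P ≠ 0) →
        Smooth F ∧ ∀ g : ℂ → Fin (n + 2) → ℂ, EntireCurve F g →
          (∀ ω₁ ω₂ : ℂ, LinearIndependent ℝ ![ω₁, ω₂] → Period g ω₁ → Period g ω₂ → Constant g) ∧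
          (TowerCurve g → Constant g) ∧
          (¬ Constant g → ∃ b : ℂ, ∀ σ : ℂ → ℂ, FunctionalCurve σ g → ∃ r : ℚ,
            (∀ z, σ z = z + r * b) ∧ ∃ k : ℕ, 0 < k ∧ Period g (k * (r * b))) := by
  obtain ⟨Ps, h1, h2, h3⟩ := step n d hd
  refine ⟨Ps, h1, h2, fun F hF hP => ?_⟩
  obtain ⟨hS, hT⟩ := h3 F hF hP
  refine ⟨hS, fun g hg => ⟨?_, ?_, ?_⟩⟩
  · intro ω₁ ω₂ hω hp1 hp2
    rw [constant_iff hg.ne]
    intro hnc
    exact not_top (hT ω₁ ω₂ hω (curve g hg.ne) (holMap_curve hg.hol hg.ne)
      (fun z => curve_eq.2 (hp1 z)) (fun z => curve_eq.2 (hp2 z)) (inV_curve hg.ne hg.mem) hnc 0)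
  · rintro ⟨B, ψ, hB, hψ, hdiff, hnc, h, hh, hc⟩
    rw [constant_iff hg.ne]
    intro hnc'
    exact not_top (tow_main hT hB hψ hdiff hnc (holMap_curve hg.hol hg.ne) hh
      (rep_of hg.ne hc) (inV_curve hg.ne hg.mem) hnc' 0)
  · intro hnc
    rw [constant_iff hg.ne, not_not] at hnc
    obtain ⟨b, hb⟩ := (Pool.Agent.Y189.DC.final (Ideal.span {F}) ⊤).1 hT (curve g hg.ne)
      (holMap_curve hg.hol hg.ne) (inV_curve hg.ne hg.mem)
      ⟨0, fun h => not_top h⟩ hnc
    refine ⟨b, fun σ hσ => ?_⟩
    obtain ⟨ha, hb', U, hU, h, hm, hf, hc⟩ := hσ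
    obtain ⟨r, hr, k, hk, hper⟩ := hb σ ⟨ha, hb', U, hU, h, hm, hf, rep_of hg.ne hc⟩
    exact ⟨r, hr, k, hk, fun z => curve_eq.1 (hper z)⟩

end Pool.Agent.Results.MP_b509a1_ag.VeryGeneralTowers
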